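import Pool.Agent.H29.SuppB

namespace Pool.Agent.Results.MP_fe632d_an.Diffuse
open MeasureTheory Set Filter Topology ContinuousLinearMap InnerProductSpace Pool.Agent.H29.Supp
open scoped ENNReal NNReal InnerProductSpace

variable {X : Type} [MeasurableSpace X]

/-- the Hilbert space `L₂(X, μ)` -/
def Leb (μ : Measure X) : Type := Lp ℂ 2 μ
noncomputable instance i1 (μ : Measure X) : NormedAddCommGroup (Leb μ) :=
  Lp.instNormedAddCommGroup
noncomputable instance i2 (μ : Measure X) : InnerProductSpace ℂ (Leb μ) := L2.innerProductSpace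
instance i3 (μ : Measure X) : CompleteSpace (Leb μ) := Lp.instCompleteSpace

/-- the measure of the support of a vector -/
noncomputable def ms {μ : Measure X} (ξ : Leb μ) : ℝ≥0∞ := μ {x | (id ξ : Lp ℂ 2 μ) x ≠ 0}

/-- support expansion at most `l` -/
def SuppExp {μ : Measure X} (a : Leb μ →L[ℂ] Leb μ) (l : ℝ≥0) : Prop :=
  ∀ ξ, ms (a ξ) ≤ l * ms ξ ∧ ms (star a ξ) ≤ l * ms ξ

/-- the quantum uniform Roe algebra -/
def Roe (μ : Measure X) : Set (Leb μ →L[ℂ] Leb μ) := closure {a | ∃ l, SuppExp a l}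

/-- compact operators on `L₂(X, μ)` -/
def Cpt (μ : Measure X) : Set (Leb μ →L[ℂ] Leb μ) := {K | IsCompactOperator K}

lemma rk {H : Type} [NormedAddCommGroup H] [InnerProductSpace ℂ H]
    (C : Submodule ℂ (H →L[ℂ] H)) (hC : IsClosed (C : Set (H →L[ℂ] H))) (S : Submodule ℂ H)
    (hS : S.topologicalClosure = ⊤) (h : ∀ x ∈ S, ∀ y ∈ S, rankOne ℂ x y ∈ C) (x y : H) :
    rankOne ℂ x y ∈ C := by
  have hx : ∀ x, x ∈ closure (S : Set H) := fun x => by
    rw [← Submodule.topologicalClosure_coe, hS]; trivial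
  have c1 : ∀ y : H, Continuous fun x : H => (rankOne ℂ x y : H →L[ℂ] H) := fun y =>
    (LipschitzWith.of_dist_le_mul (K := ‖y‖₊) fun a b => by
      rw [dist_eq_norm, dist_eq_norm, ← ContinuousLinearMap.sub_apply, ← map_sub, norm_rankOne,
        mul_comm]
      rfl).continuous
  have c2 : ∀ x : H, Continuous fun y : H => (rankOne ℂ x y : H →L[ℂ] H) := fun x =>
    (LipschitzWith.of_dist_le_mul (K := ‖x‖₊) fun a b => by
      rw [dist_eq_norm, dist_eq_norm, ← map_sub, norm_rankOne]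
      rfl).continuous
  have h1 : ∀ x ∈ S, rankOne ℂ x y ∈ C := fun x hx' => by
    have := map_mem_closure (t := (C : Set (H →L[ℂ] H))) (c2 x) (hx y) (h x hx')
    rwa [hC.closure_eq] at this
  have := map_mem_closure (t := (C : Set (H →L[ℂ] H))) (c1 y) (hx x) h1
  rwa [hC.closure_eq] at this

lemma sand {H G : Type} [NormedAddCommGroup H] [InnerProductSpace ℂ H] [CompleteSpace H]
    [NormedAddCommGroup G] [InnerProductSpace ℂ G] [CompleteSpace G] {s : Set (G →L[ℂ] G)}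
    {t : Set (H →L[ℂ] H)} (b c : G →L[ℂ] H) (e : G) (he : rankOne ℂ e e ∈ closure s)
    (h : ∀ a ∈ s, b ∘L a ∘L adjoint c ∈ t) : rankOne ℂ (b e) (c e) ∈ closure t := by
  have := map_mem_closure (f := fun a : G →L[ℂ] G => b ∘L a ∘L adjoint c) (by fun_prop) he h
  rwa [rankOne_comp, comp_rankOne, adjoint_adjoint] at this

theorem aux [StandardBorelSpace X] (μ : Measure X) [NullSingletonClass μ]
    (K : Lp ℂ 2 μ →L[ℂ] Lp ℂ 2 μ) (hK : IsCompactOperator K) :
    K ∈ closure {a : Lp ℂ 2 μ →L[ℂ] Lp ℂ 2 μ | F a} := by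
  have F0 : ∀ {Y : Type} [MeasurableSpace Y] (ν : Measure Y),
      F (0 : Lp ℂ 2 ν →L[ℂ] Lp ℂ 2 μ) := fun ν => by
    refine ⟨0, fun ξ => le_of_eq ?_, fun ξ => le_of_eq ?_⟩ <;>
      simp only [map_zero, ContinuousLinearMap.zero_apply, ENNReal.coe_zero, zero_mul] <;>
      exact Lp.coeFn_zero ℂ 2 _
  let C0 : Submodule ℂ (Lp ℂ 2 μ →L[ℂ] Lp ℂ 2 μ) :=
    { carrier := {a | F a}, add_mem' := F.add, zero_mem' := F0 μ, smul_mem' := fun c _ h => h.smul c }
  let S : Submodule ℂ (Lp ℂ 2 μ) :=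
    { carrier := {ξ | ∃ b : Lp ℂ 2 τ →L[ℂ] Lp ℂ 2 μ, F b ∧ b (bas 0) = ξ}
      add_mem' := by
        rintro _ _ ⟨b, hb, rfl⟩ ⟨c, hc, rfl⟩
        exact ⟨b + c, hb.add hc, rfl⟩
      zero_mem' := ⟨0, F0 τ, rfl⟩
      smul_mem' := by
        rintro c _ ⟨b, hb, rfl⟩
        exact ⟨c • b, hb.smul c, rfl⟩ }
  haveI : NullSingletonClass (AddCircle.haarAddCircle (T := 1)) := ⟨fun x => by
    have := AddCircle.volume_closedBall (T := 1) (x := x) 0
    rw [AddCircle.volume_eq_smul_haarAddCircle] at this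
    simpa using this⟩
  obtain ⟨ρ1, π1, a1, a2, a3⟩ := iso τ
  have dense : S.topologicalClosure = ⊤ := by
    rw [Submodule.topologicalClosure_eq_top_iff, Submodule.eq_bot_iff]
    intro ζ hζ
    apply Lp.ext
    refine (Lp.ae_eq_zero_of_forall_setIntegral_eq_zero ζ (by simp) (by simp)
      (fun s _ hs => integrableOn_Lp_of_measure_ne_top ζ (by simp) hs.ne) fun s hs hs' => ?_).trans
      (Lp.coeFn_zero ℂ 2 μ).symm
    by_cases h0 : μ s = 0
    · exact setIntegral_measure_zero _ h0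
    set c : ℝ≥0 := (μ s).toNNReal⁻¹ with hc
    have c0 : (μ s).toNNReal ≠ 0 := ENNReal.toNNReal_ne_zero.2 ⟨h0, hs'.ne⟩
    haveI : IsProbabilityMeasure (c • μ.restrict s) := ⟨by
      rw [Measure.coe_nnreal_smul_apply, Measure.restrict_apply_univ,
        ← ENNReal.coe_toNNReal hs'.ne, ← ENNReal.coe_mul, hc, inv_mul_cancel₀ c0]
      simp⟩
    haveI : NullSingletonClass (c • μ.restrict s) := ⟨fun x => by simp⟩
    obtain ⟨ρ2, π2, b1, b2, b3⟩ := iso (c • μ.restrict s)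
    have b4 : ∀ᵐ t ∂volume.restrict (Ioo (0 : ℝ) 1), ρ2 (π2 t) = t := by
      rw [← b1.map_eq, ae_map_iff (p := fun t => ρ2 (π2 t) = t) b1.measurable.aemeasurable
        (measurableSet_eq_fun (b1.measurable.comp b2.measurable) measurable_id)]
      filter_upwards [b3] with x hx
      rw [hx]
    have hF := F_W hs (inv_ne_zero c0) (b2.comp a1) (a2.comp b1) (by
      filter_upwards [a3, a1.quasiMeasurePreserving.ae b4] with y h1 h2
      simp only [Function.comp, h2, h1])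
    have h1 := (Submodule.mem_orthogonal _ _).1 hζ _ ⟨_, hF.adj, rfl⟩
    rw [adjoint_inner_left, L2.inner_def, integral_congr_ae (g := fun y => ζ ((π2 ∘ ρ1) y)) (by
      filter_upwards [W_ae s (b2.comp a1) ζ, bas_ae 0] with y h1 h2
      rw [h1, h2, UnitAddTorus.mFourier_zero]
      simp), ← integral_map (b2.comp a1).measurable.aemeasurable
        (Lp.stronglyMeasurable ζ).aestronglyMeasurable, (b2.comp a1).map_eq,
      integral_smul_nnreal_measure] at h1
    exact (smul_eq_zero.1 h1).resolve_left (inv_ne_zero c0)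
  refine approx C0.topologicalClosure C0.isClosed_topologicalClosure
    (rk _ C0.isClosed_topologicalClosure S dense ?_) K hK
  rintro _ ⟨b, hb, rfl⟩ _ ⟨c, hc, rfl⟩
  exact sand b c _ torus fun a ha => hb.comp (F.comp ha hc.adj)

theorem result [StandardBorelSpace X] (μ : Measure X) [NullSingletonClass μ] :
    Cpt μ ⊆ Roe μ ∧
      ((∃ s, MeasurableSet s ∧ μ s ≠ 0 ∧ μ s ≠ ∞) → ∃ K ∈ Roe μ ∩ Cpt μ, K ≠ 0) := by
  have h : ∀ K : Leb μ →L[ℂ] Leb μ, IsCompactOperator K → K ∈ Roe μ := fun K hK =>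
    closure_mono (fun a (ha : F a) => ha.imp fun l hl ξ => ⟨hl.1 ξ, hl.2 ξ⟩) (aux μ K hK)
  refine ⟨h, fun ⟨s, hs, h0, h1⟩ => ?_⟩
  let v : Leb μ := indicatorConstLp 2 hs h1 (1 : ℂ)
  have hv : v ≠ 0 := by
    rw [← norm_ne_zero_iff]
    change ‖indicatorConstLp 2 hs h1 (1 : ℂ)‖ ≠ 0
    rw [norm_indicatorConstLp (by simp) (by simp)]
    have : 0 < μ.real s := ENNReal.toReal_pos h0 h1
    rw [norm_one]
    positivity
  have hc : IsCompactOperator (rankOne ℂ v v) :=
    (isCompactOperator_of_locallyCompactSpace_dom (innerSL ℂ v)).clm_comp (toSpanSingleton ℂ v)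
  exact ⟨_, ⟨h _ hc, hc⟩, by simp [hv]⟩

end Pool.Agent.Results.MP_fe632d_an.Diffuse
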